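import Pool.Agent.helper16.EXT.Spec3T

set_option autoImplicit false

open Finset

namespace Pool.Agent.EXT

open Pool.Agent.EXC

section
variable {K : Type} [Field K] (τ : K ≃+* K)

theorem IC0_uniq {a : Lm C6 K} {t : K} {g h : GF τ} (hg : IsF τ a t (g : Equiv.Perm (LT τ)))
    (hh : IsF τ a t (h : Equiv.Perm (LT τ))) : g = h := by
  apply Subtype.ext
  refine Equiv.ext fun v => Subtype.ext ?_
  rw [hg v, hh v]

theorem IC0_one (a : Lm C6 K) : IsF τ a 0 ((1 : GF τ) : Equiv.Perm (LT τ)) := by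
  intro v
  change (v : Lm C6 K) = xe C6 a 0 v
  unfold xe
  simp

end

theorem IC0 (hIW2 : IW2_stmt) (hFXF : FXF_stmt) (hGFX : GFX_stmt) (hTFS : TFS_stmt) : IC0_stmt := by
  intro K _ τ hτ b f t t' s s' hTp hfm ht' hs c1 c2 c3 c4 m hm
  classical
  obtain ⟨hb, hf, -⟩ := hTFS K τ hτ b f (-2) hTp
  obtain ⟨hbx, -, hbm, -⟩ := (hGFX K τ hτ).2 b hb
  obtain ⟨hfx, -, hfm', -⟩ := (hGFX K τ hτ).2 f hf
  have hch : ∀ p : Bool × K0 τ, ∃ g : GF τ, IsF τ (if p.1 then f else b) (p.2 : K) (g : Equiv.Perm (LT τ)) := by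
    rintro ⟨i, u⟩
    cases i
    · obtain ⟨g, hg, hg'⟩ := hbx u (K0_fix τ u)
      exact ⟨⟨g, hg⟩, hg'⟩
    · obtain ⟨g, hg, hg'⟩ := hfx u (K0_fix τ u)
      exact ⟨⟨g, hg⟩, hg'⟩
  choose h hh using hch
  have k1 : (((1 : K0 τ) : K0 τ) : K) = 1 := rfl
  have k2 : (((-1 : K0 τ) : K0 τ) : K) = -1 := rfl
  have hh1 := hh (false, 1)
  have hh2 := hh (true, 1)
  have hh3 := hh (false, -1)
  have hh4 := hh (true, -1)
  simp only [Bool.false_eq_true, if_false, if_true, k1, k2] at hh1 hh2 hh3 hh4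
  have e1 : h (false, 1) = t' := IC0_uniq τ hh1 ht'
  have e2 : h (true, 1) = s := IC0_uniq τ hh2 hs
  have e3 : t' * h (false, -1) = 1 := by
    have h1 := hbm 1 (-1) _ _ ht' hh3
    rw [add_neg_cancel] at h1
    exact IC0_uniq τ (g := t' * h (false, -1)) h1 (IC0_one τ b)
  have e4 : s * h (true, -1) = 1 := by
    have h1 := hfm' 1 (-1) _ _ hs hh4
    rw [add_neg_cancel] at h1
    exact IC0_uniq τ (g := s * h (true, -1)) h1 (IC0_one τ f)
  have e3' : h (false, -1) = t'⁻¹ := eq_inv_of_mul_eq_one_right e3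
  have e4' : h (true, -1) = s⁻¹ := eq_inv_of_mul_eq_one_right e4
  -- the power of the second factor commutes with t'
  have ht1 : Commute t' t⁻¹ := (Commute.inv_right (show Commute t' t from c1.symm))
  have hk1 : Commute (t⁻¹ * s') t' := Commute.mul_left ht1.symm (show Commute s' t' from c3.symm)
  have hk1s : Commute (t⁻¹ * s') s := Commute.mul_left (Commute.inv_left (show Commute t s from c2)) (show Commute s' s from c4.symm)
  have hk12 : Commute (t⁻¹ * s') (t' * s⁻¹) := Commute.mul_right hk1 hk1s.inv_right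
  have hz : (t' * t⁻¹) * (s' * s⁻¹) = (t⁻¹ * s') * (t' * s⁻¹) := by
    calc (t' * t⁻¹) * (s' * s⁻¹) = (t' * t⁻¹) * s' * s⁻¹ := by group
      _ = t⁻¹ * (t' * s') * s⁻¹ := by rw [ht1.eq]; group
      _ = t⁻¹ * (s' * t') * s⁻¹ := by rw [c3]
      _ = (t⁻¹ * s') * (t' * s⁻¹) := by group
  have hzm : ((t' * t⁻¹) * (s' * s⁻¹)) ^ m = 1 := by
    refine (hFXF K τ hτ).2 _ fun g => ?_
    have h1 : MulAut.conj (((t' * t⁻¹) * (s' * s⁻¹)) ^ m) = 1 := by rw [map_pow]; exact hm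
    have h2 := congrArg (fun y : MulAut (GF τ) => y g) h1
    have h3 : ((t' * t⁻¹) * (s' * s⁻¹)) ^ m * g * (((t' * t⁻¹) * (s' * s⁻¹)) ^ m)⁻¹ = g := h2
    exact mul_inv_eq_iff_eq_mul.1 h3
  rw [hz, hk12.mul_pow] at hzm
  have hk2m : Commute ((t' * s⁻¹) ^ m) t' := by
    have h1 : (t' * s⁻¹) ^ m = ((t⁻¹ * s') ^ m)⁻¹ := eq_inv_of_mul_eq_one_right hzm
    rw [h1]
    exact (hk1.pow_left m).inv_left
  -- the word
  have hκ : (((-1 : K0 τ) : K0 τ) : K) = fm C6 b f := by rw [k2, hfm]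
  have hw := hIW2 K τ hτ b f hTp (-1) hκ h hh
    (((List.replicate m [((false, 1) : Bool × K0 τ), (true, -1)]).flatten) ++
      (((false, 1) : Bool × K0 τ) :: (((List.replicate m [((true, 1) : Bool × K0 τ), (false, -1)]).flatten) ++ [((false, -1) : Bool × K0 τ)]))) ?_
  · rw [ZC0_word] at hw
    simp only [Bool.false_eq_true, if_false, if_true, neg_neg, mul_one, mul_neg, neg_mul, one_mul] at hw
    have hM : (!![1, -1; 0, 1] : Matrix (Fin 2) (Fin 2) (K0 τ)) * !![1, 0; 1, 1] = !![0, -1; 1, 1] := by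
      ext i j
      fin_cases i <;> fin_cases j <;> simp [Matrix.mul_apply, Fin.sum_univ_two]
    have hN : (!![1, 0; -1, 1] : Matrix (Fin 2) (Fin 2) (K0 τ)) * !![1, 1; 0, 1] = !![1, 1; -1, 0] := by
      ext i j
      fin_cases i <;> fin_cases j <;> simp [Matrix.mul_apply, Fin.sum_univ_two]
    rw [hM, hN] at hw
    have hMN : (!![1, 1; -1, 0] : Matrix (Fin 2) (Fin 2) (K0 τ)) * !![0, -1; 1, 1] = 1 := by
      ext i j
      fin_cases i <;> fin_cases j <;> simp [Matrix.mul_apply, Fin.sum_univ_two]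
    have hVU : (!![1, 1; 0, 1] : Matrix (Fin 2) (Fin 2) (K0 τ)) * !![1, -1; 0, 1] = 1 := by
      ext i j
      fin_cases i <;> fin_cases j <;> simp [Matrix.mul_apply, Fin.sum_univ_two]
    refine (A3.g_ZMT (K0 τ)).1 m ?_
    have h5 := ZC0_pow hMN m
    calc (!![0, -1; 1, 1] : Matrix (Fin 2) (Fin 2) (K0 τ)) ^ m * !![1, -1; 0, 1]
        = !![0, -1; 1, 1] ^ m * !![1, -1; 0, 1] * (!![1, 1; -1, 0] ^ m * (!![1, 1; 0, 1] * !![1, -1; 0, 1]) * !![0, -1; 1, 1] ^ m) := by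
          rw [hVU, mul_one, h5, mul_one]
      _ = (!![0, -1; 1, 1] ^ m * (!![1, -1; 0, 1] * (!![1, 1; -1, 0] ^ m * !![1, 1; 0, 1]))) * (!![1, -1; 0, 1] * !![0, -1; 1, 1] ^ m) := by
          simp only [mul_assoc]
      _ = !![1, -1; 0, 1] * !![0, -1; 1, 1] ^ m := by rw [hw, one_mul]
  · rw [ZC0_word, e1, e2, e3', e4']
    have h6 : (s * t'⁻¹) ^ m = ((t' * s⁻¹) ^ m)⁻¹ := by
      rw [← inv_pow, mul_inv_rev, inv_inv]
    rw [h6, ← mul_assoc, hk2m.eq]
    group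

end Pool.Agent.EXT
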